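import Mathlib

set_option autoImplicit false

namespace Pool.Agent.Results.MP_b8636a_al.Counterexample

open scoped Pointwise MatrixGroups

/-- The root unipotent `x_α(ξ)` of the Chevalley group `G(A₁, R) = SL₂(R)`. -/
def xPos {R : Type*} [CommRing R] (ξ : R) : SL(2, R) :=
  ⟨!![1, ξ; 0, 1], by simp [Matrix.det_fin_two]⟩

/-- The root unipotent `x_{-α}(ξ)` of `SL₂(R)`. -/
def xNeg {R : Type*} [CommRing R] (ξ : R) : SL(2, R) :=
  ⟨!![1, 0; ξ, 1], by simp [Matrix.det_fin_two]⟩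

/-- `U`, the subgroup generated by the positive root unipotents, as a set. -/
def U (R : Type*) [CommRing R] : Set SL(2, R) :=
  (Subgroup.closure (Set.range (xPos (R := R))) : Subgroup SL(2, R))

/-- `U⁻`, the subgroup generated by the negative root unipotents, as a set. -/
def V (R : Type*) [CommRing R] : Set SL(2, R) :=
  (Subgroup.closure (Set.range (xNeg (R := R))) : Subgroup SL(2, R))

lemma memU {g : SL(2, ℤ)} (h : g ∈ U ℤ) : ∃ x, g = xPos x := by
  change g ∈ Subgroup.closure _ at h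
  induction h using Subgroup.closure_induction with
  | mem g h => obtain ⟨x, rfl⟩ := h; exact ⟨x, rfl⟩
  | one => exact ⟨0, by ext i j; fin_cases i <;> fin_cases j <;> rfl⟩
  | mul _ _ _ _ h1 h2 =>
    obtain ⟨x, rfl⟩ := h1
    obtain ⟨y, rfl⟩ := h2
    exact ⟨x + y, by ext i j; fin_cases i <;> fin_cases j <;> simp [xPos, add_comm]⟩
  | inv _ _ h =>
    obtain ⟨x, rfl⟩ := h
    exact ⟨-x, inv_eq_of_mul_eq_one_right
      (by ext i j; fin_cases i <;> fin_cases j <;> simp [xPos])⟩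

lemma memV {g : SL(2, ℤ)} (h : g ∈ V ℤ) : ∃ x, g = xNeg x := by
  change g ∈ Subgroup.closure _ at h
  induction h using Subgroup.closure_induction with
  | mem g h => obtain ⟨x, rfl⟩ := h; exact ⟨x, rfl⟩
  | one => exact ⟨0, by ext i j; fin_cases i <;> fin_cases j <;> rfl⟩
  | mul _ _ _ _ h1 h2 =>
    obtain ⟨x, rfl⟩ := h1
    obtain ⟨y, rfl⟩ := h2
    exact ⟨x + y, by ext i j; fin_cases i <;> fin_cases j <;> simp [xNeg]⟩
  | inv _ _ h =>
    obtain ⟨x, rfl⟩ := h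
    exact ⟨-x, inv_eq_of_mul_eq_one_right
      (by ext i j; fin_cases i <;> fin_cases j <;> simp [xNeg])⟩

lemma arith (m y k x : ℤ) (h1 : k + m * (y * k + 1) = 21) (h2 : x * 21 + (y * k + 1) = 8) :
    False := by
  have hy : y ≠ 0 := by rintro rfl; omega
  have hk : k ≠ 0 := by rintro rfl; omega
  have hm : m ≠ 0 := by rintro rfl; obtain rfl : k = 21 := by omega
                        omega
  have h3 : |m| * |k| ≤ 21 + |m| + |k| := by
    have e : |m| * |y| * |k| = |21 - m - k| := by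
      rw [← abs_mul, ← abs_mul]; congr 1; linarith
    have : |21 - m - k| ≤ 21 + |m| + |k| := by
      have := abs_sub (21 - m) k
      have := abs_sub 21 m
      have : |(21 : ℤ)| = 21 := rfl
      linarith
    have := Int.one_le_abs hy
    nlinarith [mul_nonneg (abs_nonneg m) (abs_nonneg k)]
  have hb : (-23 ≤ m ∧ m ≤ 23) ∧ (-23 ≤ k ∧ k ≤ 23) := by
    rw [← abs_le, ← abs_le]
    have m1 := Int.one_le_abs hm
    have k1 := Int.one_le_abs hk
    rcases m1.eq_or_lt with m2 | m2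
    · refine ⟨by omega, ?_⟩
      rcases (abs_eq zero_le_one).mp m2.symm with rfl | rfl
      · exact Int.le_of_dvd (by norm_num) ((abs_dvd _ _).mpr ⟨y + 1, by linarith⟩ : |k| ∣ 20)
          |>.trans (by norm_num)
      · exact Int.le_of_dvd (by norm_num) ((abs_dvd _ _).mpr ⟨1 - y, by linarith⟩ : |k| ∣ 22)
          |>.trans (by norm_num)
    rcases k1.eq_or_lt with k2 | k2
    · refine ⟨?_, by omega⟩
      rcases (abs_eq zero_le_one).mp k2.symm with rfl | rfl
      · exact Int.le_of_dvd (by norm_num) ((abs_dvd _ _).mpr ⟨y + 1, by linarith⟩ : |m| ∣ 20)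
          |>.trans (by norm_num)
      · exact Int.le_of_dvd (by norm_num) ((abs_dvd _ _).mpr ⟨1 - y, by linarith⟩ : |m| ∣ 22)
          |>.trans (by norm_num)
    constructor <;> nlinarith
  obtain ⟨⟨a1, a2⟩, a3, a4⟩ := hb
  clear h3
  interval_cases m <;> interval_cases k <;> omega

/-- In `SL₂(ℤ) = G(A₁, ℤ)` the sets `U⁻ U U⁻ U U⁻` and `U U⁻ U U⁻ U` differ. -/
theorem result : V ℤ * U ℤ * V ℤ * U ℤ * V ℤ ≠ U ℤ * V ℤ * U ℤ * V ℤ * U ℤ := by
  intro h
  have hU : ∀ x : ℤ, xPos x ∈ U ℤ := fun x => Subgroup.subset_closure ⟨x, rfl⟩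
  have hV : ∀ x : ℤ, xNeg x ∈ V ℤ := fun x => Subgroup.subset_closure ⟨x, rfl⟩
  have h1 : xPos 2 * xNeg 1 * xPos 1 * xNeg 1 * xPos 2 ∈ V ℤ * U ℤ * V ℤ * U ℤ * V ℤ :=
    h ▸ Set.mul_mem_mul (Set.mul_mem_mul (Set.mul_mem_mul (Set.mul_mem_mul (hU 2) (hV 1))
      (hU 1)) (hV 1)) (hU 2)
  obtain ⟨_, ⟨_, ⟨_, ⟨_, h1, _, h2, rfl⟩, _, h3, rfl⟩, _, h4, rfl⟩, _, h5, e⟩ := h1
  obtain ⟨x, rfl⟩ := memV h1
  obtain ⟨m, rfl⟩ := memU h2
  obtain ⟨y, rfl⟩ := memV h3
  obtain ⟨k, rfl⟩ := memU h4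
  obtain ⟨z, rfl⟩ := memV h5
  have e1 := congrArg (fun g : SL(2, ℤ) => g 0 1) e
  have e2 := congrArg (fun g : SL(2, ℤ) => g 1 1) e
  simp [xPos, xNeg] at e1 e2
  refine arith m y k x (by linarith) ?_
  have : k + m * (y * k + 1) = 21 := by linarith
  rw [← this]
  linarith

end Pool.Agent.Results.MP_b8636a_al.Counterexample
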